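import Pool.Agent.Run7.h782.Dyn2

/-!
The energy cascade before a blow-up of a solution of the Navier-Stokes equations: a positive
proportion of the scales `r` must carry a flux of energy larger than `c N ν³ / r`, where `N` is the
number of the singular points.

`V = Fin 3 → ℝ` with the maximum norm. See the claim file for the definitions.
-/

open MeasureTheory Set Metric Filter Topology
open scoped ContDiff

namespace Pool.Agent.Results.MP_6bf1e5_an.EnergyCascade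

open H459R3.NS W221.NS

/-- The increment `v(x + z) - v(x)`. -/
def inc (v : V → V) (z x : V) : V := v (x + z) - v x

/-- The flux of energy through the scale `r`, with the kernel `φ` and the weight `χ`:
`r⁻¹ ∫ ∫ χ(x) (∇φ(y) · w) |w|² dx dy`, where `w = v(x + r y) - v(x)`. -/
noncomputable def flux (φ χ : V → ℝ) (r : ℝ) (v : V → V) : ℝ :=
  r⁻¹ * ∫ y, ∫ x in cube, χ x * ((∑ j, pd j φ y * inc v (r • y) x j)
    * ∑ i, inc v (r • y) x i ^ 2)

/-- The dissipation of the increments at the scale `r`, with the kernel `φ` and the weight `χ`: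
`∫ ∫ φ(y) χ(x) |∇w|² dx dy`, where `w = v(x + r y) - v(x)`. -/
noncomputable def diss (φ χ : V → ℝ) (r : ℝ) (v : V → V) : ℝ :=
  ∫ y, φ y * ∫ x in cube, χ x * ∑ i, ∑ j,
    (pd j (fun w => v w i) (x + r • y) - pd j (fun w => v w i) x) ^ 2

/-- The scale `r` is quiet, with the bound `κ`, before the time `T`: on each time interval of
length at most `r² / ν` in `[T - A r² / ν, T)` the flux of energy through the scale `r` is at most
`θ` times the viscous dissipation of the increments, plus `κ ν² r`. -/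
def Quiet (φ χ : V → ℝ) (θ A ν T κ r : ℝ) (u : ℝ → V → V) : Prop :=
  ∀ s t : ℝ, 0 ≤ s → T - A * r ^ 2 / ν ≤ s → s ≤ t → t < T → t - s ≤ r ^ 2 / ν →
    ∫ τ in s..t, flux φ χ r (u τ)
      ≤ θ * (2 * ν * ∫ τ in s..t, diss φ χ r (u τ)) + κ * ν ^ 2 * r

theorem result (φ : V → ℝ) (hφ : ContDiff ℝ ∞ φ) (hc : HasCompactSupport φ) (h0 : ∀ y, 0 ≤ φ y)
    (h1 : 0 < φ 0) (θ : ℝ) (hθ : θ < 1) :
    ∃ (A C : ℝ) (Q : ℕ), 0 < A ∧ 0 < C ∧ 0 < Q ∧
    ∀ (ν T F r₀ : ℝ) (u : ℝ → V → V) (p : ℝ → V → ℝ) (f : ℝ → V → V) (χ : V → ℝ) (K : ℕ → ℝ)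
      (G : Set ℕ), 0 < ν → 0 < T → 0 < r₀ → IsSolF ν T F u p f → ContDiff ℝ ∞ χ → Per χ →
      (∀ x, 0 < χ x) → (∀ j, 0 < K j) → Monotone K →
      (∀ j ∈ G, Quiet φ χ θ A ν T (K j) (r₀ / 2 ^ j) u) →
      -- separated singular points
      (∃ j₀ : ℕ, ∀ j, j₀ ≤ j → (∀ i, i < j → Q * (Set.Ioc i j \ G).ncard ≤ j - i) →
        ∀ S : Finset V, (∀ x ∈ S, x ∈ cube ∧ Sing T u x) →
          (∀ x ∈ S, ∀ y ∈ S, x ≠ y → r₀ / 2 ^ j ≤ ‖x - y‖) → ∑ x ∈ S, χ x ≤ C * K j) ∧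
      -- the number of the singular points
      ((∃ᶠ J : ℕ in atTop, Q * (Set.Ioc 0 J \ G).ncard ≤ J) → ∀ κ : ℝ, (∀ j, K j ≤ κ) →
        (∀ S : Finset V, (∀ x ∈ S, x ∈ cube ∧ Sing T u x) → ∑ x ∈ S, χ x ≤ C * κ) ∧
        ((∀ x, C * κ < χ x) → ∃ B : ℝ, ∀ t ∈ Ico 0 T, ∀ x, ‖u t x‖ ≤ B)) := by
  obtain ⟨A, C, Q, hA, hC, hQ, H⟩ := Pool.Agent.Run7.h782.cascade (φ := φ) ⟨hφ, hc, h0, h1⟩ hθ
  refine ⟨A, C, 2 * Q, hA, hC, by omega,
    fun ν T F r₀ u p f χ K G hν hT hr₀ h hχ hχp hχ0 hK hKm hG => ?_⟩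
  obtain ⟨j₀, hj₀⟩ := H ν T F r₀ u p f χ K G hν hT hr₀ h ⟨hχ, hχp⟩ hχ0 hK hKm
    (fun j hj s t hs hs2 hst htT hW => by
      have h2 := hG j hj s t hs hs2 hst htT hW
      refine le_trans h2 (le_of_eq ?_)
      have e : (∫ τ in s..t, diss φ χ (r₀ / 2 ^ j) (u τ))
        = ∫ τ in s..t, Pool.Agent.Run7.h782.dr φ χ (r₀ / 2 ^ j) (Pool.Agent.Run7.h782.U u τ) := rfl
      rw [e]
      ring)
  have hcnt : ∀ i j, Pool.Agent.Run7.h782.cnt G i j = (Set.Ioc i j \ G).ncard := fun _ _ => rfl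
  refine ⟨⟨j₀, fun j hj hcj => hj₀ j hj fun i hi => ?_⟩, fun hfr κ hκ => ?_⟩
  · have h2 := hcj i hi
    rw [← hcnt] at h2
    have h3 : Q * Pool.Agent.Run7.h782.cnt G i j ≤ 2 * Q * Pool.Agent.Run7.h782.cnt G i j := by
      rw [mul_assoc]
      omega
    exact h3.trans h2
  have hfr2 := Pool.Agent.Run7.h782.pliss (G := G) (Q := Q) hfr
  have hfinite : ∀ S : Finset V, (∀ x ∈ S, x ∈ cube ∧ Sing T u x) → ∑ x ∈ S, χ x ≤ C * κ := by
    intro S hSs
    obtain ⟨ε, hε, hsep⟩ : ∃ ε : ℝ, 0 < ε ∧ ∀ x ∈ S, ∀ y ∈ S, x ≠ y → ε ≤ ‖x - y‖ := by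
      classical
      set P := (S ×ˢ S).filter fun q => q.1 ≠ q.2 with hP
      by_cases hne : P.Nonempty
      · obtain ⟨q, hq, hmin⟩ := P.exists_min_image (fun q => ‖q.1 - q.2‖) hne
        have hq0 : 0 < ‖q.1 - q.2‖ := by
          rw [hP, Finset.mem_filter] at hq
          exact norm_pos_iff.2 (sub_ne_zero.2 hq.2)
        exact ⟨‖q.1 - q.2‖, hq0, fun x hx y hy hxy => hmin (x, y) (by
          rw [hP, Finset.mem_filter]
          exact ⟨Finset.mk_mem_product hx hy, hxy⟩)⟩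
      · exact ⟨1, one_pos, fun x hx y hy hxy => absurd ⟨(x, y), by
          rw [hP, Finset.mem_filter]
          exact ⟨Finset.mk_mem_product hx hy, hxy⟩⟩ hne⟩
    have hsmall : ∀ᶠ j : ℕ in atTop, r₀ / 2 ^ j < ε := by
      have h2 := (tendsto_pow_atTop_nhds_zero_of_lt_one (r := (1 / 2 : ℝ)) (by norm_num)
        (by norm_num)).const_mul r₀
      rw [mul_zero] at h2
      filter_upwards [h2.eventually (gt_mem_nhds hε)] with j hj
      rwa [one_div_pow, mul_one_div] at hj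
    obtain ⟨j, hj1, hj2, hj3⟩ := (hfr2.and_eventually (hsmall.and (eventually_ge_atTop j₀))).exists
    exact (hj₀ j hj3 hj1 S hSs fun x hx y hy hxy => hj2.le.trans (hsep x hx y hy hxy)).trans
      (mul_le_mul_of_nonneg_left (hκ j) hC.le)
  refine ⟨hfinite, fun hsmall => ?_⟩
  refine Pool.Agent.Run7.h782.bdd_of_no_sing hT h fun x hx hsing => ?_
  have h2 := hfinite {x} (by
    intro y hy
    rw [Finset.mem_singleton] at hy
    rw [hy]
    exact ⟨hx, hsing⟩)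
  rw [Finset.sum_singleton] at h2
  exact absurd h2 (not_le.2 (hsmall x))

end Pool.Agent.Results.MP_6bf1e5_an.EnergyCascade
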