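import Pool.Agent.Run7.h32.GD.Mn
import Pool.Agent.Run7.h407.GD.App
import Pool.Agent.Run7.h782.GD.T1
import Pool.Agent.Run7.h782.GD.Dec

/-!
Every smooth periodic divergence free field becomes, after a perturbation of arbitrarily high
frequency which is small in the homogeneous Besov spaces of negative order one with third index
larger than two, the initial velocity of a global smooth periodic solution of the Navier-Stokes
equations without force, and this solution relaxes to its mean as fast as one likes.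
-/

set_option autoImplicit false

open MeasureTheory Set
open scoped ContDiff

namespace Pool.Agent.Results.MP_6bf1e5_an.GlobalDensity

open H459R3.NS Pool.Agent.Run7.h782.GD

theorem result : ∃ C : ℝ, 0 < C ∧ ∀ ν : ℝ, 0 < ν → ∀ u₀ : V → V, ContDiff ℝ ∞ u₀ → Per u₀ →
    (∀ x, ∑ i, pd i (fun y => u₀ y i) x = 0) → ∀ δ : ℝ, 0 < δ → ∀ R : ℝ,
    ∃ (u : ℝ → V → V) (p : ℝ → V → ℝ), (∀ T, IsSol ν T u p) ∧
      (∀ k, len k ≤ R → vf (u 0) k = vf u₀ k) ∧
      (∃ h : ℝ → ℝ,
        (∀ t, 0 < t → (∀ x i, |heat t (fun y => u 0 y i - u₀ y i) x| ≤ h t) ∧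
          h t ≤ δ / Real.sqrt t) ∧
        IntegrableOn (fun t => h t ^ 2) (Ioi 0) ∧
        ∫ t in Ioi (0 : ℝ), h t ^ 2 ≤ C * ν * ∑' k, ‖vf u₀ k‖ / len k) ∧
      ∀ t, δ ≤ t → ∀ x i, |u t x i - ∫ y in cube, u₀ y i| ≤ δ :=
  Pool.Agent.Run7.h32.GD.main stmT1 Pool.Agent.Run7.h407.GD.stmApp
    Pool.Agent.Run7.h32.GD.stmPhys stmDecay

end Pool.Agent.Results.MP_6bf1e5_an.GlobalDensity
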